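import Pool.Agent.H44R2.Stk.Defs

/-!
# The stack algorithm (task T1)
-/

set_option autoImplicit false

namespace Pool.Agent.H143R2.Stk

open Pool.Agent.H44R2.Stk

theorem srt_nil : srt [] = [] := rfl

theorem foldl_perm (σ : List ℕ) : ∀ (st out : List ℕ),
    ((σ.foldl stp (st, out)).2 ++ (σ.foldl stp (st, out)).1).Perm (out ++ st ++ σ) := by
  induction σ with
  | nil => intro st out; simp
  | cons z σ ih =>
    intro st out
    have h := ih (stp (st, out) z).1 (stp (st, out) z).2
    rw [List.foldl_cons]
    refine h.trans ?_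
    unfold stp
    rw [List.perm_iff_count]
    intro a
    have h2 := congrArg (List.count a)
      (List.takeWhile_append_dropWhile (p := fun a : ℕ => decide (a < z)) (l := st))
    rw [List.count_append] at h2
    simp only [List.count_append, List.count_cons]
    omega

theorem srt_perm (σ : List ℕ) : (srt σ).Perm σ := by
  have := foldl_perm σ [] []
  simpa [srt] using this

theorem foldl_out (R : List ℕ) : ∀ (st out : List ℕ),
    R.foldl stp (st, out) = ((R.foldl stp (st, [])).1, out ++ (R.foldl stp (st, [])).2) := by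
  induction R with
  | nil => intro st out; simp
  | cons z R ih =>
    intro st out
    rw [List.foldl_cons, List.foldl_cons]
    have h1 := ih (stp (st, out) z).1 (stp (st, out) z).2
    have h2 := ih (stp (st, []) z).1 (stp (st, []) z).2
    have e1 : (stp (st, out) z).1 = (stp (st, []) z).1 := rfl
    have e2 : (stp (st, out) z).2 = out ++ (stp (st, []) z).2 := by simp [stp]
    have e3 : stp (st, out) z = ((stp (st, out) z).1, (stp (st, out) z).2) := rfl
    have e4 : stp (st, []) z = ((stp (st, []) z).1, (stp (st, []) z).2) := rfl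
    rw [e3, h1, e4, h2, e1, e2, List.append_assoc]

theorem takeWhile_snoc (st : List ℕ) (m z : ℕ) (h : ¬ m < z) :
    (st ++ [m]).takeWhile (fun a : ℕ => decide (a < z)) =
      st.takeWhile (fun a : ℕ => decide (a < z)) := by
  induction st with
  | nil => simp [List.takeWhile, h]
  | cons a st ih =>
    rw [List.cons_append, List.takeWhile_cons, List.takeWhile_cons, ih]

theorem dropWhile_snoc (st : List ℕ) (m z : ℕ) (h : ¬ m < z) :
    (st ++ [m]).dropWhile (fun a : ℕ => decide (a < z)) =
      st.dropWhile (fun a : ℕ => decide (a < z)) ++ [m] := by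
  induction st with
  | nil => simp [List.dropWhile, h]
  | cons a st ih =>
    rw [List.cons_append, List.dropWhile_cons, List.dropWhile_cons, ih]
    split_ifs <;> rfl

theorem foldl_bottom (R : List ℕ) (m : ℕ) (hR : ∀ a ∈ R, a ≤ m) : ∀ (st out : List ℕ),
    R.foldl stp (st ++ [m], out) =
      ((R.foldl stp (st, out)).1 ++ [m], (R.foldl stp (st, out)).2) := by
  induction R with
  | nil => intro st out; rfl
  | cons z R ih =>
    intro st out
    have hz : ¬ m < z := not_lt.2 (hR z (by simp))
    have ih' := ih (fun a ha => hR a (by simp [ha])) (stp (st, out) z).1 (stp (st, out) z).2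
    rw [List.foldl_cons, List.foldl_cons]
    have e : stp (st ++ [m], out) z = ((stp (st, out) z).1 ++ [m], (stp (st, out) z).2) := by
      simp only [stp, takeWhile_snoc st m z hz, dropWhile_snoc st m z hz, List.cons_append]
    rw [e, ih']

theorem mem_stack {L : List ℕ} {a : ℕ} (h : a ∈ (L.foldl stp ([], [])).1) : a ∈ L := by
  have := (foldl_perm L [] []).mem_iff (a := a)
  simp only [List.nil_append, List.mem_append] at this
  exact this.1 (Or.inr h)

theorem takeWhile_all (l : List ℕ) (z : ℕ) (h : ∀ a ∈ l, a < z) :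
    l.takeWhile (fun a : ℕ => decide (a < z)) = l := by
  rw [List.takeWhile_eq_self_iff]
  intro a ha
  simpa using h a ha

theorem dropWhile_all (l : List ℕ) (z : ℕ) (h : ∀ a ∈ l, a < z) :
    l.dropWhile (fun a : ℕ => decide (a < z)) = [] := by
  rw [List.dropWhile_eq_nil_iff]
  intro a ha
  simpa using h a ha

theorem srt_split (L R : List ℕ) (m : ℕ) (hL : ∀ a ∈ L, a < m) (hR : ∀ a ∈ R, a < m) :
    srt (L ++ m :: R) = srt L ++ (srt R ++ [m]) := by
  have h1 : stp (L.foldl stp ([], [])) m = ([] ++ [m], srt L) := by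
    have h2 : ∀ a ∈ (L.foldl stp ([], [])).1, a < m := fun a ha => hL a (mem_stack ha)
    show (m :: (L.foldl stp ([], [])).1.dropWhile (fun a : ℕ => decide (a < m)),
      (L.foldl stp ([], [])).2 ++ (L.foldl stp ([], [])).1.takeWhile
        (fun a : ℕ => decide (a < m))) = ([] ++ [m], srt L)
    rw [takeWhile_all _ _ h2, dropWhile_all _ _ h2]
    rfl
  have h3 : (L ++ m :: R).foldl stp ([], []) =
      ((R.foldl stp ([], [])).1 ++ [m], srt L ++ (R.foldl stp ([], [])).2) := by
    rw [List.foldl_append, List.foldl_cons, h1,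
      foldl_bottom R m (fun a ha => (hR a ha).le), foldl_out R [] (srt L)]
  unfold srt at h3 ⊢
  rw [h3]
  simp only [List.append_assoc]

theorem srt_single (m : ℕ) : srt [m] = [m] ∧ des (srt [m]) = 0 := by
  have h : srt [m] = [m] := by simp [srt, stp]
  exact ⟨h, by rw [h]; simp [des]⟩

theorem des_nil : des [] = 0 := rfl

theorem des_one (a : ℕ) : des [a] = 0 := by simp [des]

theorem des_cons (a b : ℕ) (t : List ℕ) :
    des (a :: b :: t) = (if b < a then 1 else 0) + des (b :: t) := by
  unfold des
  simp only [List.tail_cons, List.zip_cons_cons, List.countP_cons, decide_eq_true_eq]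
  rw [add_comm]

theorem des_append (A B : List ℕ) (a b : ℕ) :
    des (A ++ [a] ++ b :: B) = des (A ++ [a]) + des (b :: B) + (if b < a then 1 else 0) := by
  induction A with
  | nil =>
    simp only [List.nil_append, List.singleton_append, des_cons, des_one]
    ring
  | cons c A ih =>
    cases A with
    | nil =>
      simp only [List.nil_append, List.cons_append, des_cons, des_one] at ih ⊢
      omega
    | cons d A =>
      simp only [List.cons_append, List.append_assoc, List.nil_append, des_cons] at ih ⊢
      omega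

theorem des_snoc_max (A : List ℕ) (m : ℕ) (hA : ∀ a ∈ A, a < m) : des (A ++ [m]) = des A := by
  rcases List.eq_nil_or_concat A with rfl | ⟨A', a, rfl⟩
  · rfl
  · have h := des_append A' [] a m
    rw [List.concat_eq_append] at hA ⊢
    rw [h, des_one, if_neg]
    · rfl
    · exact not_lt.2 (hA a (by simp)).le

theorem srt_ne_nil {L : List ℕ} (h : L ≠ []) : srt L ≠ [] := by
  intro h0
  have := srt_perm L
  rw [h0] at this
  exact h this.symm.eq_nil

theorem mem_srt {L : List ℕ} {a : ℕ} : a ∈ srt L ↔ a ∈ L := (srt_perm L).mem_iff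

theorem hd_append {A B : List ℕ} (h : A ≠ []) : hd (A ++ B) = hd A := by
  cases A with
  | nil => exact absurd rfl h
  | cons a A => rfl

theorem des_left (L : List ℕ) (m : ℕ) (hL : ∀ a ∈ L, a < m) (h : L ≠ []) :
    des (srt (L ++ m :: [])) = des (srt L) ∧ hd (srt (L ++ m :: [])) = hd (srt L) := by
  have h1 := srt_split L [] m hL (by simp)
  rw [srt_nil, List.nil_append] at h1
  rw [h1]
  exact ⟨des_snoc_max _ _ fun a ha => hL a (mem_srt.1 ha), hd_append (srt_ne_nil h)⟩

theorem des_right (R : List ℕ) (m : ℕ) (hR : ∀ a ∈ R, a < m) (h : R ≠ []) :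
    des (srt ([] ++ m :: R)) = des (srt R) ∧ hd (srt ([] ++ m :: R)) = hd (srt R) := by
  have h1 := srt_split [] R m (by simp) hR
  rw [srt_nil, List.nil_append (as := srt R ++ [m])] at h1
  rw [h1]
  exact ⟨des_snoc_max _ _ fun a ha => hR a (mem_srt.1 ha), hd_append (srt_ne_nil h)⟩

/-- the bottom of the stack is the largest letter read so far -/
theorem bottom_max (L : List ℕ) (h : L ≠ []) :
    ∃ (st : List ℕ) (c : ℕ), (L.foldl stp ([], [])).1 = st ++ [c] ∧ ∀ x ∈ L, x ≤ c := by
  induction L using List.reverseRecOn with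
  | nil => exact absurd rfl h
  | append_singleton L z ih =>
    rw [List.foldl_append, List.foldl_cons, List.foldl_nil]
    by_cases hL : L = []
    · subst hL
      exact ⟨[], z, by simp [stp], by simp⟩
    · obtain ⟨st, c, h1, h2⟩ := ih hL
      by_cases hc : c < z
      · refine ⟨[], z, ?_, ?_⟩
        · have h3 : ∀ a ∈ (L.foldl stp ([], [])).1, a < z := fun a ha =>
            lt_of_le_of_lt (h2 a (mem_stack ha)) hc
          unfold stp at h3 ⊢
          rw [dropWhile_all _ _ h3]
          rfl
        · intro x hx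
          rw [List.mem_append, List.mem_singleton] at hx
          rcases hx with hx | rfl
          · exact ((h2 x hx).trans hc.le)
          · exact le_rfl
      · refine ⟨z :: st.dropWhile (fun a : ℕ => decide (a < z)), c, ?_, ?_⟩
        · show z :: (L.foldl stp ([], [])).1.dropWhile (fun a : ℕ => decide (a < z)) = _
          rw [h1, dropWhile_snoc st c z hc, List.cons_append]
        · intro x hx
          rw [List.mem_append, List.mem_singleton] at hx
          rcases hx with hx | rfl
          · exact h2 x hx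
          · exact not_lt.1 hc

theorem srt_last (L : List ℕ) (h : L ≠ []) :
    ∃ (A : List ℕ) (c : ℕ), srt L = A ++ [c] ∧ ∀ x ∈ L, x ≤ c := by
  obtain ⟨st, c, h1, h2⟩ := bottom_max L h
  refine ⟨(L.foldl stp ([], [])).2 ++ st, c, ?_, h2⟩
  unfold srt
  rw [h1, List.append_assoc]

theorem des_both (L R : List ℕ) (m : ℕ) (hL : ∀ a ∈ L, a < m) (hR : ∀ a ∈ R, a < m)
    (h : L ≠ []) (h' : R ≠ []) :
    des (srt (L ++ m :: R)) = des (srt L) + des (srt R) +
      (if ∃ a ∈ L, hd (srt R) < a then 1 else 0) ∧
    hd (srt (L ++ m :: R)) = hd (srt L) := by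
  have h1 := srt_split L R m hL hR
  rw [h1]
  refine ⟨?_, hd_append (srt_ne_nil h)⟩
  obtain ⟨A, c, h2, h3⟩ := srt_last L h
  obtain ⟨b, B, h4⟩ := List.exists_cons_of_ne_nil (srt_ne_nil h')
  have h5 := des_snoc_max (srt R) m fun a ha => hR a (mem_srt.1 ha)
  rw [← h5, h4, h2, List.cons_append, des_append]
  congr 1
  have hc : c ∈ L := mem_srt.1 (by rw [h2]; simp)
  have hb : hd (b :: B) = b := rfl
  rw [hb]
  by_cases hbc : b < c
  · rw [if_pos hbc, if_pos ⟨c, hc, hbc⟩]
  · rw [if_neg hbc, if_neg]
    rintro ⟨x, hx, hbx⟩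
    exact hbc (lt_of_lt_of_le hbx (h3 x hx))

end Pool.Agent.H143R2.Stk
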